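import Pool.Agent.H28.RC.Targets3

/-!
# Frobenius elements in a tower, from above (target `T_FR1`)
-/

set_option autoImplicit false
set_option linter.unusedSectionVars false

open NumberField

namespace Pool.Agent.H52.RC

open Pool.Agent.H28.RC

section base

variable {F Ω : Type} [Field F] [NumberField F] [Field Ω] [NumberField Ω] [Algebra F Ω]

lemma absNorm_pos' {P : Ideal (𝓞 F)} (hP : P ≠ ⊥) : 0 < Ideal.absNorm P :=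
  Nat.pos_of_ne_zero fun h => hP (Ideal.absNorm_eq_zero_iff.1 h)

/-- a Frobenius element at a given prime -/
lemma exists_frob [IsGalois F Ω] (Q : Ideal (𝓞 Ω)) (hQ : Q.IsPrime) (hQ0 : Q ≠ ⊥) :
    ∃ g : Ω ≃ₐ[F] Ω, ∀ x : 𝓞 Ω, g • x - x ^ (Ideal.absNorm (Q.under (𝓞 F))) ∈ Q := by
  have hfd : FiniteDimensional F Ω := Module.Finite.of_restrictScalars_finite ℚ F Ω
  have g1 : IsGaloisGroup (Ω ≃ₐ[F] Ω) (𝓞 F) (𝓞 Ω) :=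
    IsGaloisGroup.of_isFractionRing (Ω ≃ₐ[F] Ω) (𝓞 F) (𝓞 Ω) F Ω
  have hfin : Finite (𝓞 Ω ⧸ Q) := Ideal.finiteQuotientOfFreeOfNeBot Q hQ0
  obtain ⟨g, hg⟩ := IsArithFrobAt.exists_of_isInvariant (𝓞 F) (Ω ≃ₐ[F] Ω) Q
  refine ⟨g, fun x => ?_⟩
  have h := hg x
  rw [Ideal.absNorm_apply, Submodule.cardQuot_apply]
  exact h

lemma smul_mem_of_frob {Q : Ideal (𝓞 Ω)} {g : Ω ≃ₐ[F] Ω} {n : ℕ} (hn : 0 < n)
    (hg : ∀ x : 𝓞 Ω, g • x - x ^ n ∈ Q) {x : 𝓞 Ω} (hx : x ∈ Q) : g • x ∈ Q := by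
  have h1 := hg x
  have h2 : x ^ n ∈ Q := Ideal.pow_mem_of_mem Q hx n hn
  have h3 := Q.add_mem h1 h2
  rwa [sub_add_cancel] at h3

lemma pow_frob {Q : Ideal (𝓞 Ω)} {g : Ω ≃ₐ[F] Ω} {n : ℕ} (hn : 0 < n)
    (hg : ∀ x : 𝓞 Ω, g • x - x ^ n ∈ Q) (k : ℕ) :
    ∀ x : 𝓞 Ω, (g ^ k) • x - x ^ (n ^ k) ∈ Q := by
  induction k with
  | zero =>
    intro x
    rw [pow_zero, pow_zero, one_smul, pow_one, sub_self]
    exact Q.zero_mem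
  | succ k ih =>
    intro x
    have h1 : g • ((g ^ k) • x - x ^ (n ^ k)) ∈ Q := smul_mem_of_frob hn hg (ih x)
    have h2 := hg (x ^ (n ^ k))
    have h3 := Q.add_mem h1 h2
    rw [smul_sub, sub_add_sub_cancel, ← pow_mul, ← pow_succ, ← mul_smul, ← pow_succ'] at h3
    exact h3

/-- two automorphisms which agree modulo `Q` are equal, if `Q` is unramified -/
lemma eq_of_agree {m : Ideal (𝓞 F)} (hUR : UR Ω m) {Q : Ideal (𝓞 Ω)} (hQ : Q.IsPrime)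
    (hQ0 : Q ≠ ⊥) (hm : Q.under (𝓞 F) ⊔ m = ⊤) {g h : Ω ≃ₐ[F] Ω}
    (H : ∀ x : 𝓞 Ω, h • x - g • x ∈ Q) : h = g := by
  have h1 : h * g⁻¹ = 1 := by
    refine hUR Q hQ hQ0 hm _ fun x => ?_
    have h2 := H (g⁻¹ • x)
    rw [smul_inv_smul, ← mul_smul] at h2
    exact h2
  exact mul_inv_eq_one.1 h1

end base

theorem pf_FR1 : T_FRE → T_FR1 := by
  intro hFRE F L Ω _ _ _ _ _ _ _ _ _ _ _ m hUR 𝔓 h hh hm
  have hgal : IsGalois L Ω := IsGalois.tower_top_of_isGalois F L Ω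
  obtain ⟨h𝔓p, h𝔓0⟩ := (hFRE L Ω).2.1 𝔓 h hh
  obtain ⟨Q, hQ, hQ𝔓, hhQ⟩ := hh
  have hQ0 : Q ≠ ⊥ := by
    rintro rfl
    apply h𝔓0
    rw [← hQ𝔓]
    exact Ideal.under_bot _ _
  have hQP : Q.under (𝓞 F) = 𝔓.under (𝓞 F) := by
    rw [← hQ𝔓, Ideal.under_under]
  set P := 𝔓.under (𝓞 F) with hP
  have hP0 : P ≠ ⊥ := fun h0 => h𝔓0 (Ideal.eq_bot_of_comap_eq_bot (R := 𝓞 F) h0)
  have h𝔓m : 𝔓.IsMaximal := h𝔓p.isMaximal h𝔓0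
  have hPp : P.IsPrime := Ideal.IsPrime.under (𝓞 F) 𝔓
  have hPm : P.IsMaximal := hPp.isMaximal hP0
  have hlies : 𝔓.LiesOver P := ⟨rfl⟩
  obtain ⟨g, hg⟩ := exists_frob (F := F) Q hQ hQ0
  rw [hQP] at hg
  have hfP := absNorm_pos' hP0
  have hrel : Ideal.relNorm (𝓞 F) 𝔓 = P ^ 𝔓.inertiaDeg (𝓞 F) :=
    Ideal.relNorm_eq_pow_of_isMaximal 𝔓 P
  have habs : Ideal.absNorm 𝔓 = Ideal.absNorm P ^ 𝔓.inertiaDeg (𝓞 F) := by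
    rw [← Ideal.absNorm_relNorm (𝓞 F) (𝓞 L) 𝔓, hrel, map_pow]
  refine ⟨g, 𝔓.inertiaDeg (𝓞 F), Ideal.inertiaDeg_pos 𝔓 (𝓞 F), ⟨Q, hQ, hQP, hg⟩, hrel, habs, ?_⟩
  refine eq_of_agree hUR hQ hQ0 (by rw [hQP]; exact hm) fun x => ?_
  have h1 := pow_frob hfP hg (𝔓.inertiaDeg (𝓞 F)) x
  have h2 := hhQ x
  rw [habs] at h2
  have h3 := Q.sub_mem h2 h1
  rw [sub_sub_sub_cancel_right] at h3
  exact h3

end Pool.Agent.H52.RC
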