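import Pool.Agent.H70.RC.Targets

/-!
# LVL: the depth of the recursion
-/

set_option autoImplicit false

namespace Pool.Agent.H52.RC

open Pool.Agent.H70.RC

theorem poly_le (c n : ℕ) (hn : 4 ≤ n) : n ^ (c + 1) + c + 1 ≤ n ^ (c + 2) := by
  have h1 : c + 1 < n ^ (c + 1) := Nat.lt_pow_self (by omega)
  have h2 : n ^ (c + 2) = n ^ (c + 1) * n := pow_succ n (c + 1)
  have h3 : n ^ (c + 1) * 4 ≤ n ^ (c + 1) * n := Nat.mul_le_mul_left _ hn
  omega

theorem pf_LVL : T_LVL := by
  intro c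
  refine ⟨2 * (c + 2), ?_⟩
  intro n N hn hN
  have hlog : 1 ≤ Nat.log 2 n := Nat.le_log_of_pow_le (by norm_num) (by omega)
  refine ⟨fun s => Nat.log 2 (Nat.log 2 s.1.length / Nat.log 2 n), ?_, ?_⟩
  · intro s s' h
    have h1 : 2 * Nat.log 2 s'.1.length ≤ Nat.log 2 s.1.length := by
      have hs' : s'.1.length ≠ 0 := by
        have := s'.2.1
        omega
      have h2 : 2 ^ Nat.log 2 s'.1.length ≤ s'.1.length := Nat.pow_log_le_self 2 hs'
      have h3 : 2 ^ (2 * Nat.log 2 s'.1.length) ≤ s.1.length := by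
        rw [mul_comm, pow_mul]
        exact le_trans (Nat.pow_le_pow_left h2 2) h.le
      exact Nat.le_log_of_pow_le (by norm_num) h3
    have h4 : 1 ≤ Nat.log 2 s'.1.length / Nat.log 2 n := by
      rw [Nat.le_div_iff_mul_le hlog, one_mul]
      exact Nat.log_mono_right s'.2.1
    have h5 : Nat.log 2 s'.1.length / Nat.log 2 n * 2 ≤ Nat.log 2 s.1.length / Nat.log 2 n := by
      rw [Nat.le_div_iff_mul_le hlog]
      have h6 := Nat.div_mul_le_self (Nat.log 2 s'.1.length) (Nat.log 2 n)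
      calc Nat.log 2 s'.1.length / Nat.log 2 n * 2 * Nat.log 2 n =
          2 * (Nat.log 2 s'.1.length / Nat.log 2 n * Nat.log 2 n) := by ring
        _ ≤ 2 * Nat.log 2 s'.1.length := Nat.mul_le_mul_left _ h6
        _ ≤ _ := h1
    have h7 := Nat.log_mul_base (b := 2) (by norm_num) (n := Nat.log 2 s'.1.length / Nat.log 2 n)
      (by omega)
    have h8 : Nat.log 2 (Nat.log 2 s'.1.length / Nat.log 2 n * 2) ≤
        Nat.log 2 (Nat.log 2 s.1.length / Nat.log 2 n) := Nat.log_mono_right h5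
    change Nat.log 2 (Nat.log 2 s'.1.length / Nat.log 2 n) <
      Nat.log 2 (Nat.log 2 s.1.length / Nat.log 2 n)
    omega
  · intro s
    have h1 : s.1.length ≤ n ^ (c + 2) := le_trans s.2.2 (by rw [hN]; exact poly_le c n hn)
    have h2 : n ^ (c + 2) < 2 ^ ((Nat.log 2 n + 1) * (c + 2)) := by
      rw [pow_mul]
      exact Nat.pow_lt_pow_left (Nat.lt_pow_succ_log_self (by norm_num) n) (by omega)
    have h3 : Nat.log 2 s.1.length < (Nat.log 2 n + 1) * (c + 2) :=
      Nat.log_lt_of_lt_pow (by have := s.2.1; omega) (lt_of_le_of_lt h1 h2)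
    have h4 : Nat.log 2 s.1.length / Nat.log 2 n ≤ 2 * (c + 2) := by
      rw [Nat.div_le_iff_le_mul_add_pred hlog]
      have h5 : (Nat.log 2 n + 1) * (c + 2) ≤ Nat.log 2 n * (2 * (c + 2)) := by
        calc (Nat.log 2 n + 1) * (c + 2) ≤ (2 * Nat.log 2 n) * (c + 2) :=
              Nat.mul_le_mul_right _ (by omega)
          _ = Nat.log 2 n * (2 * (c + 2)) := by ring
      omega
    exact le_trans (Nat.log_le_self 2 _) h4

end Pool.Agent.H52.RC
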