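import Pool.Agent.H52.RC.LVL

/-!
# NUM: estimates
-/

set_option autoImplicit false

namespace Pool.Agent.H52.RC

open Finset Filter Pool.Agent.H70.RC

theorem card_len (n N L : ℕ) :
    (univ.filter fun s : Li n N => s.1.length = L).card ≤ 2 ^ L := by
  have h1 : (univ : Finset (Fin L → Bool)).card = 2 ^ L := by simp
  rw [← h1]
  refine Finset.card_le_card_of_injOn (fun s => fun i : Fin L => s.1.getD i false) (fun _ _ => mem_coe.2 (mem_univ _)) ?_
  intro s hs s' hs' h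
  rw [Finset.coe_filter] at hs hs'
  have h2 : s.1.length = L := hs.2
  have h3 : s'.1.length = L := hs'.2
  apply Subtype.ext
  apply List.ext_getElem (by rw [h2, h3])
  intro i hi hi'
  have h4 := congrFun h ⟨i, by omega⟩
  simp only at h4
  rw [List.getD_eq_getElem _ _ hi, List.getD_eq_getElem _ _ hi'] at h4
  exact h4

theorem sum_blocks (n N : ℕ) :
    ∑ p : Bi n N, (1 / 8 : ℝ) ^ (p.1.1.length + 20) ≤ (1 / 8) ^ 20 * (2 * (1 / 2) ^ n) := by
  rw [Fintype.sum_sigma]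
  have h1 : ∀ s : Li n N, ∑ _j : Fin s.1.length, (1 / 8 : ℝ) ^ (s.1.length + 20) ≤
      (1 / 8) ^ 20 * (1 / 4) ^ s.1.length := by
    intro s
    rw [Finset.sum_const, Finset.card_univ, Fintype.card_fin, nsmul_eq_mul, pow_add]
    have h2 : (s.1.length : ℝ) ≤ 2 ^ s.1.length := by exact_mod_cast Nat.lt_two_pow_self.le
    have h3 : (2 : ℝ) ^ s.1.length * (1 / 8) ^ s.1.length = (1 / 4) ^ s.1.length := by
      rw [← mul_pow]
      norm_num
    calc (s.1.length : ℝ) * ((1 / 8) ^ s.1.length * (1 / 8) ^ 20) =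
        (1 / 8) ^ 20 * (s.1.length * (1 / 8) ^ s.1.length) := by ring
      _ ≤ (1 / 8) ^ 20 * (2 ^ s.1.length * (1 / 8) ^ s.1.length) := by gcongr
      _ = _ := by rw [h3]
  refine le_trans (Finset.sum_le_sum fun s _ => h1 s) ?_
  rw [← Finset.mul_sum]
  refine mul_le_mul_of_nonneg_left ?_ (by positivity)
  have hmaps : ∀ s ∈ (univ : Finset (Li n N)), s.1.length ∈ Finset.Ico n (N + 1) := by
    intro s _
    rw [Finset.mem_Ico]
    have h1 := s.2.1
    have h2 := s.2.2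
    omega
  rw [← Finset.sum_fiberwise_of_maps_to hmaps]
  have h4 : ∀ L ∈ Finset.Ico n (N + 1), ∑ s ∈ univ.filter (fun s : Li n N => s.1.length = L),
      (1 / 4 : ℝ) ^ s.1.length ≤ (1 / 2) ^ L := by
    intro L _
    have h5 : ∀ s ∈ univ.filter (fun s : Li n N => s.1.length = L),
        (1 / 4 : ℝ) ^ s.1.length = (1 / 4) ^ L := by
      intro s hs
      rw [(Finset.mem_filter.1 hs).2]
    rw [Finset.sum_congr rfl h5, Finset.sum_const, nsmul_eq_mul]
    have h6 : ((univ.filter fun s : Li n N => s.1.length = L).card : ℝ) ≤ 2 ^ L := by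
      exact_mod_cast card_len n N L
    calc ((univ.filter fun s : Li n N => s.1.length = L).card : ℝ) * (1 / 4) ^ L ≤
        2 ^ L * (1 / 4) ^ L := by gcongr
      _ = (1 / 2) ^ L := by rw [← mul_pow]; norm_num
  refine le_trans (Finset.sum_le_sum h4) ?_
  have h7 := geom_sum_Ico_le_of_lt_one (x := (1 / 2 : ℝ)) (m := n) (n := N + 1) (by norm_num)
    (by norm_num)
  refine le_trans h7 ?_
  have : (1 / 2 : ℝ) ^ n / (1 - 1 / 2) = 2 * (1 / 2) ^ n := by
    rw [show (1 : ℝ) - 1 / 2 = 1 / 2 by norm_num]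
    ring
  rw [this]

theorem ev_poly (k : ℕ) : ∀ᶠ n : ℕ in atTop, 32 * n ^ k ≤ 2 ^ n := by
  have h1 := tendsto_pow_const_div_const_pow_of_one_lt k (r := (2 : ℝ)) (by norm_num)
  have h2 : ∀ᶠ n : ℕ in atTop, (n : ℝ) ^ k / 2 ^ n < 1 / 32 :=
    h1.eventually (gt_mem_nhds (by norm_num))
  filter_upwards [h2] with n hn
  have h3 : (0 : ℝ) < 2 ^ n := by positivity
  rw [div_lt_iff₀ h3] at hn
  have h4 : (32 : ℝ) * n ^ k ≤ 2 ^ n := by linarith
  exact_mod_cast h4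

theorem pf_NUM : T_NUM := by
  intro c
  filter_upwards [ev_poly (2 * (c + 2)), eventually_ge_atTop 400] with n h1 hn N hN
  have hNn : N ≤ n ^ (c + 2) := by
    rw [hN]
    exact poly_le c n (by omega)
  have hnN : n ≤ N := by
    rw [hN]
    have : n ^ 1 ≤ n ^ (c + 1) := Nat.pow_le_pow_right (by omega) (by omega)
    rw [pow_one] at this
    omega
  have hNN : 32 * (N * N) ≤ 2 ^ n := by
    have h2 : N * N ≤ n ^ (c + 2) * n ^ (c + 2) := Nat.mul_le_mul hNn hNn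
    have h3 : n ^ (c + 2) * n ^ (c + 2) = n ^ (2 * (c + 2)) := by
      rw [← pow_add]
      congr 1
      ring
    rw [h3] at h2
    omega
  refine ⟨hnN, by omega, ?_, ?_⟩
  · have h2 : (2 * N + 2) ^ 2 ≤ 32 * (N * N) := by nlinarith
    refine le_trans (le_trans h2 hNN) (Nat.pow_le_pow_right (by norm_num) ?_)
    nlinarith
  · have h2 := sum_blocks n N
    have h3 : (4 * (N * N) / 2 ^ n : ℝ) ≤ 1 / 8 := by
      have h4 : (32 * (N * N) : ℝ) ≤ 2 ^ n := by exact_mod_cast hNN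
      rw [div_le_iff₀ (by positivity)]
      linarith
    have h5 : (4 * (N * N) / 2 ^ n : ℝ) ^ N ≤ (1 / 8) ^ N :=
      pow_le_pow_left₀ (by positivity) h3 N
    have h6 : (2 : ℝ) ^ (N + 1) * 3 * (4 * (N * N) / 2 ^ n) ^ N ≤ 6 * (1 / 4) ^ N := by
      calc (2 : ℝ) ^ (N + 1) * 3 * (4 * (N * N) / 2 ^ n) ^ N ≤
          2 ^ (N + 1) * 3 * (1 / 8) ^ N := by gcongr
        _ = 6 * (2 ^ N * (1 / 8) ^ N) := by ring
        _ = 6 * (1 / 4) ^ N := by rw [← mul_pow]; norm_num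
    have h7 : (1 / 4 : ℝ) ^ N ≤ (1 / 4) ^ 400 :=
      pow_le_pow_of_le_one (by norm_num) (by norm_num) (by omega)
    have h8 : (1 / 2 : ℝ) ^ n ≤ (1 / 2) ^ 400 :=
      pow_le_pow_of_le_one (by norm_num) (by norm_num) (by omega)
    have h9 : (1 / 2 : ℝ) ^ 400 = (1 / 2) ^ 300 * (1 / 2) ^ 100 := by
      rw [← pow_add]
    have h10 : (1 / 4 : ℝ) ^ 400 ≤ (1 / 2) ^ 300 * (1 / 2) ^ 100 := by
      rw [← h9]
      exact pow_le_pow_left₀ (by norm_num) (by norm_num) 400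
    have h11 : (1 / 8 : ℝ) ^ 20 * (2 * (1 / 2) ^ n) ≤ (1 / 2) ^ 300 * (1 / 2) := by
      have h12 : (1 / 8 : ℝ) ^ 20 * (2 * (1 / 2) ^ 100) ≤ 1 / 2 := by norm_num
      calc (1 / 8 : ℝ) ^ 20 * (2 * (1 / 2) ^ n) ≤
          (1 / 8) ^ 20 * (2 * ((1 / 2) ^ 300 * (1 / 2) ^ 100)) := by
            rw [← h9]
            gcongr
        _ = (1 / 2) ^ 300 * ((1 / 8) ^ 20 * (2 * (1 / 2) ^ 100)) := by
            generalize (1 / 2 : ℝ) ^ 300 = x
            ring
        _ ≤ (1 / 2) ^ 300 * (1 / 2) := mul_le_mul_of_nonneg_left h12 (by positivity)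
    have h13 : 6 * (1 / 4 : ℝ) ^ N ≤ (1 / 2) ^ 300 * (1 / 2) := by
      have h12 : 6 * (1 / 2 : ℝ) ^ 100 ≤ 1 / 2 := by norm_num
      calc 6 * (1 / 4 : ℝ) ^ N ≤ 6 * ((1 / 2) ^ 300 * (1 / 2) ^ 100) :=
            mul_le_mul_of_nonneg_left (le_trans h7 h10) (by norm_num)
        _ = (1 / 2) ^ 300 * (6 * (1 / 2) ^ 100) := by
            generalize (1 / 2 : ℝ) ^ 300 = x
            ring
        _ ≤ (1 / 2) ^ 300 * (1 / 2) := mul_le_mul_of_nonneg_left h12 (by positivity)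
    refine le_trans (add_le_add (le_trans h2 h11) (le_trans h6 h13)) (le_of_eq ?_)
    generalize (1 / 2 : ℝ) ^ 300 = x
    ring

end Pool.Agent.H52.RC
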