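import Pool.Agent.H70.RC.Targets

/-!
# SIM: a random choice among relabelled copies of an algorithm
-/

set_option autoImplicit false

namespace Pool.Agent.H52.RC

open Finset Pool.Agent.H6.NB Pool.Agent.H70.RC
open scoped Matrix

/-- The block diagonal matrix with `M` equal blocks. -/
def bd (M : ℕ) {B : Type} (U : Matrix B B ℂ) : Matrix (Fin M × B) (Fin M × B) ℂ :=
  Matrix.of fun x y => if x.1 = y.1 then U x.2 y.2 else 0

theorem bd_unitary (M : ℕ) {B : Type} [Fintype B] [DecidableEq B] {U : Matrix B B ℂ}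
    (h : U ∈ Matrix.unitaryGroup B ℂ) : bd M U ∈ Matrix.unitaryGroup (Fin M × B) ℂ := by
  rw [Matrix.mem_unitaryGroup_iff] at h ⊢
  ext i j
  rw [Matrix.mul_apply, Fintype.sum_prod_type, Matrix.one_apply]
  have h1 : ∀ x, ∑ y, bd M U i (x, y) * star (bd M U) (x, y) j =
      if x = i.1 then (if i.1 = j.1 then ∑ y, U i.2 y * star U y j.2 else 0) else 0 := by
    intro x
    simp only [bd, Matrix.star_apply, Matrix.of_apply]
    by_cases hx : x = i.1
    · subst hx
      by_cases hj : i.1 = j.1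
      · simp [hj]
      · have hj' : ¬ j.1 = i.1 := fun e => hj e.symm
        simp [hj, hj']
    · have hx' : ¬ i.1 = x := fun e => hx e.symm
      simp [hx, hx']
  rw [Finset.sum_congr rfl fun x _ => h1 x, Finset.sum_ite_eq' Finset.univ i.1,
    if_pos (Finset.mem_univ _)]
  have h2 : ∑ y, U i.2 y * star U y j.2 = if i.2 = j.2 then 1 else 0 := by
    have h3 := congrFun (congrFun h i.2) j.2
    rw [Matrix.mul_apply, Matrix.one_apply] at h3
    exact h3
  rw [h2]
  by_cases hi : i.1 = j.1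
  · by_cases hj : i.2 = j.2
    · rw [if_pos hi, if_pos hj, if_pos (Prod.ext hi hj)]
    · rw [if_pos hi, if_neg hj, if_neg (fun e => hj (by rw [e]))]
  · rw [if_neg hi, if_neg (fun e => hi (by rw [e]))]

theorem bd_mulVec (M : ℕ) {B : Type} [Fintype B] (U : Matrix B B ℂ) (v : Fin M × B → ℂ)
    (i : Fin M) (b : B) : (bd M U *ᵥ v) (i, b) = (U *ᵥ fun b' => v (i, b')) b := by
  simp only [Matrix.mulVec, dotProduct]
  rw [Fintype.sum_prod_type, Finset.sum_eq_single i]
  · refine Finset.sum_congr rfl fun y _ => ?_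
    simp [bd]
  · intro j _ hj
    refine Finset.sum_eq_zero fun y _ => ?_
    have : ¬ i = j := fun e => hj e.symm
    simp [bd, this]
  · simp

/-- Choose `i` at random and run `Q` with the queries relabelled by `ρ i`. -/
noncomputable def rsim (Q : QAlg) (M : ℕ) (ρ : Fin M → List Bool → List Bool) (hM : 1 ≤ M) : QAlg where
  basis := Fin M × Q.basis
  query := fun x => (Q.query x.2).map (ρ x.1)
  T := Q.T
  U := fun t => bd M (Q.U t)
  unitary := fun t => bd_unitary M (Q.unitary t)
  init := fun x => ((1 / √M : ℝ) : ℂ) * Q.init x.2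
  norm_init := by
    have h0 : (0 : ℝ) < M := by exact_mod_cast hM
    rw [Fintype.sum_prod_type]
    have h1 : ∀ x : Fin M, ∑ y : Q.basis, ‖((1 / √M : ℝ) : ℂ) * Q.init (x, y).2‖ ^ 2 = 1 / M := by
      intro x
      have h2 : ∀ y : Q.basis, ‖((1 / √M : ℝ) : ℂ) * Q.init (x, y).2‖ ^ 2 =
          1 / M * ‖Q.init y‖ ^ 2 := by
        intro y
        rw [norm_mul, mul_pow, Complex.norm_real, Real.norm_eq_abs, sq_abs, div_pow, one_pow,
          Real.sq_sqrt h0.le]
      rw [Finset.sum_congr rfl fun y _ => h2 y, ← Finset.mul_sum, Q.norm_init, mul_one]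
    rw [Finset.sum_congr rfl fun x _ => h1 x, Finset.sum_const, Finset.card_univ, nsmul_eq_mul,
      Fintype.card_fin]
    field_simp
  acc := (Finset.univ : Finset (Fin M)) ×ˢ Q.acc

theorem rsim_state (Q : QAlg) (M : ℕ) (ρ : Fin M → List Bool → List Bool) (hM : 1 ≤ M)
    (O : List Bool → Bool) (t : ℕ) (i : Fin M) (b : Q.basis) :
    (rsim Q M ρ hM).state O t (i, b) =
      ((1 / √M : ℝ) : ℂ) * Q.state (fun w => O (ρ i w)) t b := by
  have hlin : ∀ (U : Matrix Q.basis Q.basis ℂ) (v : Q.basis → ℂ),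
      (U *ᵥ fun b' => ((1 / √M : ℝ) : ℂ) * v b') b = ((1 / √M : ℝ) : ℂ) * (U *ᵥ v) b := by
    intro U v
    simp only [Matrix.mulVec, dotProduct]
    rw [Finset.mul_sum]
    exact Finset.sum_congr rfl fun y _ => by ring
  induction t generalizing b with
  | zero =>
    change (bd M (Q.U 0) *ᵥ _) (i, b) = _
    rw [bd_mulVec]
    exact hlin _ _
  | succ t ih =>
    change (bd M (Q.U (t + 1)) *ᵥ _) (i, b) = _
    rw [bd_mulVec]
    have hlin' : ∀ (U : Matrix Q.basis Q.basis ℂ) (v : Q.basis → ℂ),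
      (U *ᵥ fun b' => ((1 / √M : ℝ) : ℂ) * v b') b = ((1 / √M : ℝ) : ℂ) * (U *ᵥ v) b := hlin
    have h1 : (fun b' : Q.basis => (rsim Q M ρ hM).phase O (i, b') * (rsim Q M ρ hM).state O t (i, b')) =
        fun b' => ((1 / √M : ℝ) : ℂ) * (Q.phase (fun w => O (ρ i w)) b' *
          Q.state (fun w => O (ρ i w)) t b') := by
      funext b'
      rw [ih b' (by
        intro U v
        simp only [Matrix.mulVec, dotProduct]
        rw [Finset.mul_sum]
        exact Finset.sum_congr rfl fun y _ => by ring)]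
      have h2 : (rsim Q M ρ hM).phase O (i, b') = Q.phase (fun w => O (ρ i w)) b' := by
        unfold QAlg.phase
        change (match (Q.query b').map (ρ i) with
          | none => (1 : ℂ)
          | some w => if O w then -1 else 1) = _
        cases Q.query b' <;> rfl
      rw [h2]
      ring
    change (Q.U (t + 1) *ᵥ fun b' : Q.basis => (rsim Q M ρ hM).phase O (i, b') *
      (rsim Q M ρ hM).state O t (i, b')) b = _
    rw [h1, hlin']
    rfl

theorem pf_SIM : T_SIM := by
  intro Q M ρ hM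
  refine ⟨rsim Q M ρ hM, rfl, ?_, ?_⟩
  · rintro m m' hQ hρ ⟨i, b⟩ w hw
    change (Q.query b).map (ρ i) = some w at hw
    rw [Option.map_eq_some_iff] at hw
    obtain ⟨w', h1, h2⟩ := hw
    rw [← h2]
    exact hρ i w' (hQ b w' h1)
  · intro O
    have h0 : (0 : ℝ) < M := by exact_mod_cast hM
    unfold QAlg.prob
    change ∑ x ∈ (Finset.univ : Finset (Fin M)) ×ˢ Q.acc, ‖(rsim Q M ρ hM).state O Q.T x‖ ^ 2 = _
    rw [Finset.sum_product, Finset.sum_div]
    refine Finset.sum_congr rfl fun i _ => ?_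
    rw [Finset.sum_div]
    refine Finset.sum_congr rfl fun b _ => ?_
    rw [rsim_state, norm_mul, mul_pow, Complex.norm_real, Real.norm_eq_abs, sq_abs, div_pow, one_pow,
      Real.sq_sqrt h0.le]
    ring

end Pool.Agent.H52.RC
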