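import Pool.Agent.H70.RC.Targets

/-!
# STR: the strings of the positions
-/

set_option autoImplicit false

namespace Pool.Agent.H52.RC

open Pool.Agent.H6.NB Pool.Agent.H70.EH Pool.Agent.H78.XQ Pool.Agent.H70.RC

theorem hb_length (hCOD : Pool.Agent.H6.NB.T_COD) (p : Bx) :
    (hb p).length = 2 * p.1.length + 2 * (p.2 : ℕ) + 16 * (p.1.length + 20) ^ 3 + 2 := by
  unfold hb hom
  rw [hCOD.2]
  simp

theorem hb_pos (hCOD : Pool.Agent.H6.NB.T_COD) (p : Bx) : 0 < (hb p).length := by
  rw [hb_length hCOD]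
  omega

theorem hb_inj (hCOD : Pool.Agent.H6.NB.T_COD) : Function.Injective hb := by
  rintro ⟨s, j⟩ ⟨s', j'⟩ h
  unfold hb hom at h
  obtain ⟨h1, h2, -⟩ := hCOD.1 _ _ _ _ _ _ h
  simp only at h1 h2
  subst h1
  have h3 := congrArg List.length h2
  simp only [List.length_replicate] at h3
  have : j = j' := Fin.ext h3
  rw [this]

theorem code_true (x y : List Bool) (i : ℕ) (h : 0 < x.length) : ∃ w, code x y i = true :: w := by
  cases x with
  | nil => simp at h
  | cons b l => exact ⟨b :: (dbl l ++ false :: (dbl y ++ false :: List.replicate i true)), rfl⟩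

theorem arrp_true (s a : List Bool) : ∃ w, arrp s a = true :: w := by
  unfold arrp
  exact code_true _ _ _ (by simp)

theorem str_injective (hCOD : Pool.Agent.H6.NB.T_COD) : Function.Injective str := by
  rintro (⟨n, x⟩ | ⟨s, a⟩ | ⟨p, u, b, v⟩ | ⟨p, z⟩) (⟨n', x'⟩ | ⟨s', a'⟩ | ⟨p', u', b', v'⟩ | ⟨p', z'⟩) h
  · simp only [str] at h
    have h1 := (List.cons.inj h).2
    have h2 := congrArg List.length h1
    simp only [List.length_ofFn] at h2
    subst h2
    have h3 := List.ofFn_injective h1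
    rw [h3]
  · exfalso
    simp only [str] at h
    obtain ⟨w, hw⟩ := arrp_true s' (List.ofFn a')
    rw [hw] at h
    exact absurd (List.cons.inj h).1 (by simp)
  · exfalso
    simp only [str, pos] at h
    obtain ⟨w, hw⟩ := code_true (hb p') (List.ofFn u' ++ List.ofFn v') b'.toNat (hb_pos hCOD p')
    rw [hw] at h
    exact absurd (List.cons.inj h).1 (by simp)
  · exfalso
    simp only [str, wps] at h
    obtain ⟨w, hw⟩ := code_true (hb p') (List.ofFn z') 2 (hb_pos hCOD p')
    rw [hw] at h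
    exact absurd (List.cons.inj h).1 (by simp)
  · exfalso
    simp only [str] at h
    obtain ⟨w, hw⟩ := arrp_true s (List.ofFn a)
    rw [hw] at h
    exact absurd (List.cons.inj h).1 (by simp)
  · simp only [str, arrp] at h
    obtain ⟨h1, h2, -⟩ := hCOD.1 _ _ _ _ _ _ h
    have h3 := (List.cons.inj h1).2
    subst h3
    have h4 := List.ofFn_injective h2
    rw [h4]
  · exfalso
    simp only [str, arrp, pos] at h
    obtain ⟨-, -, h3⟩ := hCOD.1 _ _ _ _ _ _ h
    have := Bool.toNat_le b'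
    omega
  · exfalso
    simp only [str, arrp, wps] at h
    obtain ⟨-, -, h3⟩ := hCOD.1 _ _ _ _ _ _ h
    omega
  · exfalso
    simp only [str, pos] at h
    obtain ⟨w, hw⟩ := code_true (hb p) (List.ofFn u ++ List.ofFn v) b.toNat (hb_pos hCOD p)
    rw [hw] at h
    exact absurd (List.cons.inj h).1 (by simp)
  · exfalso
    simp only [str, arrp, pos] at h
    obtain ⟨-, -, h3⟩ := hCOD.1 _ _ _ _ _ _ h
    have := Bool.toNat_le b
    omega
  · simp only [str, pos] at h
    obtain ⟨h1, h2, h3⟩ := hCOD.1 _ _ _ _ _ _ h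
    have h4 := hb_inj hCOD h1
    subst h4
    have h5 : b = b' := by
      revert h3
      cases b <;> cases b' <;> simp
    subst h5
    have h6 := List.append_inj h2 (by simp)
    have h7 := List.ofFn_injective h6.1
    have h8 := List.ofFn_injective h6.2
    rw [h7, h8]
  · exfalso
    simp only [str, wps, pos] at h
    obtain ⟨-, -, h3⟩ := hCOD.1 _ _ _ _ _ _ h
    have := Bool.toNat_le b
    omega
  · exfalso
    simp only [str, wps] at h
    obtain ⟨w, hw⟩ := code_true (hb p) (List.ofFn z) 2 (hb_pos hCOD p)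
    rw [hw] at h
    exact absurd (List.cons.inj h).1 (by simp)
  · exfalso
    simp only [str, arrp, wps] at h
    obtain ⟨-, -, h3⟩ := hCOD.1 _ _ _ _ _ _ h
    omega
  · exfalso
    simp only [str, wps, pos] at h
    obtain ⟨-, -, h3⟩ := hCOD.1 _ _ _ _ _ _ h
    have := Bool.toNat_le b'
    omega
  · simp only [str, wps] at h
    obtain ⟨h1, h2, -⟩ := hCOD.1 _ _ _ _ _ _ h
    have h4 := hb_inj hCOD h1
    subst h4
    have h5 := List.ofFn_injective h2
    rw [h5]

theorem lvl_lt (hCOD : Pool.Agent.H6.NB.T_COD) (p : Ps) : lvl p < (str p).length := by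
  rcases p with ⟨n, x⟩ | ⟨s, a⟩ | ⟨p, u, b, v⟩ | ⟨p, z⟩
  · simp [lvl, str]
  · simp only [lvl, str, arrp]
    rw [hCOD.2]
    simp only [List.length_cons]
    omega
  · simp only [lvl, str, pos]
    have h1 := hb_length hCOD p
    rw [hCOD.2]
    omega
  · simp only [lvl, str, wps]
    have h1 := hb_length hCOD p
    rw [hCOD.2]
    omega

theorem hb_sz (hCOD : Pool.Agent.H6.NB.T_COD) (p : Bx) :
    Sz (p.1.length + 20) (hb p).length (qs (hb p)) (rns (hb p)) (wln (hb p)) := by
  have h1 := hb_length hCOD p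
  have h2 := p.2.2
  refine ⟨by omega, by omega, ?_, rfl, rfl, rfl⟩
  rw [h1]
  have h3 : 16 * (p.1.length + 20 + 1) ^ 3 = 16 * (p.1.length + 20) ^ 3 +
      16 * (3 * (p.1.length + 20) ^ 2 + 3 * (p.1.length + 20) + 1) := by ring
  rw [h3]
  have h4 : 0 ≤ (p.1.length + 20) ^ 2 := Nat.zero_le _
  omega

theorem pf_STR (hCOD : Pool.Agent.H6.NB.T_COD) : Pool.Agent.H70.RC.T_STR := by
  refine ⟨str_injective hCOD, lvl_lt hCOD, ?_, hb_sz hCOD⟩
  intro s a
  unfold arrp
  rw [hCOD.2]
  simp only [List.length_cons]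
  omega

end Pool.Agent.H52.RC
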